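import Mathlib

/-!
# Inquisitive first-order logic InqBQ: language, models, support
-/

set_option autoImplicit false

namespace Pool.Agent.H444Z.Inq

universe u v

/-- A signature: predicate symbols and function symbols with arities; each function symbol is
rigid or not (constants are the function symbols of arity `0`). -/
structure Signature where
  Pred : Type
  predArity : Pred → ℕ
  Func : Type
  funcArity : Func → ℕ
  rigid : Func → Prop

/-- Terms; the variables are the natural numbers. -/
inductive Term (σ : Signature) : Type
  | var : ℕ → Term σ
  | app : (f : σ.Func) → (Fin (σ.funcArity f) → Term σ) → Term σ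

/-- Formulas of InqBQ: atoms, identities, falsum, conjunction, inquisitive disjunction,
implication, universal quantifier, inquisitive existential quantifier. -/
inductive Formula (σ : Signature) : Type
  | atom : (P : σ.Pred) → (Fin (σ.predArity P) → Term σ) → Formula σ
  | ident : Term σ → Term σ → Formula σ
  | falsum : Formula σ
  | conj : Formula σ → Formula σ → Formula σ
  | inqOr : Formula σ → Formula σ → Formula σ
  | impl : Formula σ → Formula σ → Formula σ
  | all : ℕ → Formula σ → Formula σ
  | inqEx : ℕ → Formula σ → Formula σ

/-- A model with universe (set of worlds) `W` and domain `D`, both non-empty. Each world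
interprets the predicate and function symbols on `D`, rigid function symbols getting the same map
at all worlds, and carries an equivalence relation on `D` which is a congruence for the
interpretations at that world. -/
structure Model (σ : Signature) (W : Type u) (D : Type v) where
  nonempty_worlds : Nonempty W
  nonempty_domain : Nonempty D
  pred : W → (P : σ.Pred) → Set (Fin (σ.predArity P) → D)
  func : W → (f : σ.Func) → (Fin (σ.funcArity f) → D) → D
  func_rigid : ∀ f : σ.Func, σ.rigid f → ∀ w w' : W, func w f = func w' f
  sim : W → D → D → Prop
  sim_equivalence : ∀ w : W, Equivalence (sim w)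
  pred_congr : ∀ (w : W) (P : σ.Pred) (d e : Fin (σ.predArity P) → D),
    (∀ i, sim w (d i) (e i)) → (d ∈ pred w P ↔ e ∈ pred w P)
  func_congr : ∀ (w : W) (f : σ.Func) (d e : Fin (σ.funcArity f) → D),
    (∀ i, sim w (d i) (e i)) → sim w (func w f d) (func w f e)

variable {σ : Signature} {W : Type u} {D : Type v}

/-- The value of a term at the world `w` under the assignment `g`. -/
def Term.val (M : Model σ W D) (w : W) (g : ℕ → D) : Term σ → D
  | Term.var x => g x
  | Term.app f ts => M.func w f (fun i => Term.val M w g (ts i))

/-- Support of a formula at a state `s` (a set of worlds) under an assignment `g`. -/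
def Supports (M : Model σ W D) : Formula σ → Set W → (ℕ → D) → Prop
  | Formula.atom P ts, s, g => ∀ w ∈ s, (fun i => (ts i).val M w g) ∈ M.pred w P
  | Formula.ident t t', s, g => ∀ w ∈ s, M.sim w (t.val M w g) (t'.val M w g)
  | Formula.falsum, s, _ => s = ∅
  | Formula.conj φ ψ, s, g => Supports M φ s g ∧ Supports M ψ s g
  | Formula.inqOr φ ψ, s, g => Supports M φ s g ∨ Supports M ψ s g
  | Formula.impl φ ψ, s, g => ∀ t : Set W, t ⊆ s → Supports M φ t g → Supports M ψ t g
  | Formula.all x φ, s, g => ∀ d : D, Supports M φ s (Function.update g x d)
  | Formula.inqEx x φ, s, g => ∃ d : D, Supports M φ s (Function.update g x d)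

/-- The model `M` refutes `φ` if `φ` is not supported at some state under some assignment. -/
def Refutes (M : Model σ W D) (φ : Formula σ) : Prop :=
  ∃ (s : Set W) (g : ℕ → D), ¬ Supports M φ s g

end Pool.Agent.H444Z.Inq
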