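import Pool.Agent.H444Z.Inq.Defs

set_option autoImplicit false

namespace Pool.Agent.H444Z.Inq

universe u v

/-- function symbols: `0 = e` (rigid constant), `1 = f` (rigid unary), `2 = a`, `3 = b`
(non-rigid constants). -/
inductive Fn : Type
  | e | f | a | b
  deriving DecidableEq, Fintype

def Fn.ar : Fn → ℕ
  | Fn.e => 0
  | Fn.f => 1
  | Fn.a => 0
  | Fn.b => 0

def Fn.rig : Fn → Prop
  | Fn.e => True
  | Fn.f => True
  | Fn.a => False
  | Fn.b => False

abbrev sig : Signature where
  Pred := Unit
  predArity := fun _ => 1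
  Func := Fn
  funcArity := Fn.ar
  rigid := Fn.rig

def tx : Term sig := Term.var 0
def ty : Term sig := Term.var 1
def te : Term sig := Term.app (σ := sig) Fn.e (fun i => Fin.elim0 i)
def ta : Term sig := Term.app (σ := sig) Fn.a (fun i => Fin.elim0 i)
def tb : Term sig := Term.app (σ := sig) Fn.b (fun i => Fin.elim0 i)
def tf (t : Term sig) : Term sig := Term.app (σ := sig) Fn.f (fun _ => t)
def fP (t : Term sig) : Formula sig := Formula.atom (σ := sig) () (fun _ => t)
def fneg (φ : Formula sig) : Formula sig := Formula.impl φ Formula.falsum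

def fId : Formula sig :=
  Formula.all 0 (Formula.all 1 (Formula.inqOr (Formula.ident tx ty) (fneg (Formula.ident tx ty))))
def fInf : Formula sig :=
  Formula.conj (fP te) (Formula.conj (Formula.all 0 (Formula.impl (fP tx) (fP (tf tx))))
    (Formula.conj
      (Formula.all 0 (Formula.all 1
        (Formula.impl (Formula.ident (tf tx) (tf ty)) (Formula.ident tx ty))))
      (Formula.all 0 (fneg (Formula.ident (tf tx) te)))))
def fDep : Formula sig :=
  Formula.impl (Formula.inqEx 0 (Formula.ident ta tx)) (Formula.inqEx 0 (Formula.ident tb tx))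
def fNotSurj : Formula sig := Formula.inqEx 0 (fneg (Formula.ident tb tx))
def fNotFull : Formula sig :=
  Formula.inqEx 0 (Formula.inqEx 1
    (fneg (Formula.conj (Formula.ident ta tx) (Formula.ident tb ty))))
def phi : Formula sig :=
  Formula.impl (Formula.conj fId fInf)
    (Formula.impl (Formula.impl (Formula.conj (fP ta) fDep) fNotSurj) fNotFull)

section
variable {W : Type u} {D : Type v} (M : Model sig W D)

def cE (w : W) : D := M.func w Fn.e (fun i => Fin.elim0 i)
def cA (w : W) : D := M.func w Fn.a (fun i => Fin.elim0 i)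
def cB (w : W) : D := M.func w Fn.b (fun i => Fin.elim0 i)
def cF (w : W) (d : D) : D := M.func w Fn.f (fun _ => d)
def cP (w : W) (d : D) : Prop := (fun _ => d) ∈ M.pred w ()

theorem val_te (w : W) (g : ℕ → D) : te.val M w g = cE M w := by
  unfold te cE Term.val
  congr 1
  funext i
  exact Fin.elim0 i

theorem val_ta (w : W) (g : ℕ → D) : ta.val M w g = cA M w := by
  unfold ta cA Term.val
  congr 1
  funext i
  exact Fin.elim0 i

theorem val_tb (w : W) (g : ℕ → D) : tb.val M w g = cB M w := by
  unfold tb cB Term.val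
  congr 1
  funext i
  exact Fin.elim0 i

theorem val_tf (w : W) (g : ℕ → D) (t : Term sig) : (tf t).val M w g = cF M w (t.val M w g) := rfl
theorem val_tx (w : W) (g : ℕ → D) : tx.val M w g = g 0 := rfl
theorem val_ty (w : W) (g : ℕ → D) : ty.val M w g = g 1 := rfl

theorem sup_fP (t : Term sig) (s : Set W) (g : ℕ → D) :
    Supports M (fP t) s g ↔ ∀ w ∈ s, cP M w (t.val M w g) := Iff.rfl

theorem sup_neg_ident (t t' : Term sig) (s : Set W) (g : ℕ → D) :
    Supports M (fneg (Formula.ident t t')) s g ↔
      ∀ w ∈ s, ¬ M.sim w (t.val M w g) (t'.val M w g) := by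
  unfold fneg
  simp only [Supports]
  constructor
  · intro h w hw hs
    have := h {w} (by simpa using hw) (by simpa using hs)
    simp at this
  · intro h t ht hs
    by_contra hne
    obtain ⟨w, hw⟩ := Set.nonempty_iff_ne_empty.mpr hne
    exact h w (ht hw) (hs w hw)

theorem sup_fId (s : Set W) (g : ℕ → D) :
    Supports M fId s g ↔ ∀ d e : D, (∀ w ∈ s, M.sim w d e) ∨ (∀ w ∈ s, ¬ M.sim w d e) := by
  unfold fId
  simp only [Supports.eq_7, Supports.eq_5, sup_neg_ident, Supports.eq_2, val_tx, val_ty]
  simp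

theorem sup_fInf (s : Set W) (g : ℕ → D) :
    Supports M fInf s g ↔ (∀ w ∈ s, cP M w (cE M w)) ∧
      (∀ w ∈ s, ∀ d, cP M w d → cP M w (cF M w d)) ∧
      (∀ w ∈ s, ∀ d e, M.sim w (cF M w d) (cF M w e) → M.sim w d e) ∧
      (∀ w ∈ s, ∀ d, ¬ M.sim w (cF M w d) (cE M w)) := by
  unfold fInf
  simp only [Supports.eq_7, Supports.eq_4, Supports.eq_6, sup_neg_ident, Supports.eq_2, sup_fP,
    val_tx, val_ty, val_te, val_tf]
  simp only [Function.update_self, ne_eq, zero_ne_one, not_false_eq_true, Function.update_of_ne]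
  refine and_congr Iff.rfl (and_congr ?_ (and_congr ?_ ?_))
  · constructor
    · intro h w hw d hd
      exact h d {w} (by simpa using hw) (by simpa using hd) w rfl
    · intro h d t ht hd w hw
      exact h w (ht hw) d (hd w hw)
  · constructor
    · intro h w hw d e hd
      exact h d e {w} (by simpa using hw) (by simpa using hd) w rfl
    · intro h d e t ht hd w hw
      exact h w (ht hw) d e (hd w hw)
  · constructor
    · intro h w hw d
      exact h d w hw
    · intro h d w hw
      exact h w hw d

theorem sup_fDep (s : Set W) (g : ℕ → D) :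
    Supports M fDep s g ↔ ∀ t ⊆ s, (∃ d, ∀ w ∈ t, M.sim w (cA M w) d) →
      ∃ d, ∀ w ∈ t, M.sim w (cB M w) d := by
  unfold fDep
  simp only [Supports.eq_8, Supports.eq_6, Supports.eq_2, val_tx, val_ta, val_tb,
    Function.update_self]

theorem sup_fNotSurj (s : Set W) (g : ℕ → D) :
    Supports M fNotSurj s g ↔ ∃ d, ∀ w ∈ s, ¬ M.sim w (cB M w) d := by
  unfold fNotSurj
  simp only [Supports.eq_8, sup_neg_ident, val_tx, val_tb, Function.update_self]

theorem sup_fNotFull (s : Set W) (g : ℕ → D) :
    Supports M fNotFull s g ↔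
      ∃ d e, ∀ w ∈ s, ¬ (M.sim w (cA M w) d ∧ M.sim w (cB M w) e) := by
  unfold fNotFull fneg
  simp only [Supports, val_tx, val_ty, val_ta, val_tb]
  simp only [Function.update_self, ne_eq, zero_ne_one, not_false_eq_true, Function.update_of_ne]
  refine exists_congr fun d => exists_congr fun e => ?_
  constructor
  · intro h w hw hs
    have := h {w} (by simpa using hw) ⟨by simpa using hs.1, by simpa using hs.2⟩
    simp at this
  · intro h t ht hs
    by_contra hne
    obtain ⟨w, hw⟩ := Set.nonempty_iff_ne_empty.mpr hne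
    exact h w (ht hw) ⟨hs.1 w hw, hs.2 w hw⟩

theorem cP_congr (w : W) {d e : D} (h : M.sim w d e) (hd : cP M w d) : cP M w e :=
  (M.pred_congr w () (fun _ => d) (fun _ => e) (fun _ => h)).mp hd

theorem countable_supports [Countable D] (s : Set W) (g : ℕ → D) : Supports M phi s g := by
  unfold phi
  simp only [Supports.eq_6, Supports.eq_4, sup_fId, sup_fInf, sup_fDep, sup_fNotSurj,
    sup_fNotFull, sup_fP, val_ta]
  intro s' _ ⟨hId, hPe, hPf, hinj, hne⟩ t ht himp
  by_contra hfull
  push Not at hfull
  have hD := M.nonempty_domain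
  obtain ⟨d0⟩ := hD
  obtain ⟨w0, hw0, -⟩ := hfull d0 d0
  have hE : ∀ w, cE M w = cE M w0 := fun w => by
    unfold cE; rw [M.func_rigid Fn.e trivial w w0]
  have hF : ∀ w d, cF M w d = cF M w0 d := fun w d => by
    unfold cF; rw [M.func_rigid Fn.f trivial w w0]
  let x : ℕ → D := fun n => (cF M w0)^[n] (cE M w0)
  have hx0 : x 0 = cE M w0 := rfl
  have hxs : ∀ n, x (n + 1) = cF M w0 (x n) := fun n => Function.iterate_succ_apply' _ _ _
  have hxP : ∀ w ∈ s', ∀ n, cP M w (x n) := by
    intro w hw n
    induction n with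
    | zero => rw [hx0, ← hE w]; exact hPe w hw
    | succ n ih => rw [hxs, ← hF w]; exact hPf w hw _ ih
  have hw0' : w0 ∈ s' := ht hw0
  have hxinj : ∀ m n, M.sim w0 (x m) (x n) → m = n := by
    intro m
    induction m with
    | zero =>
      intro n h
      cases n with
      | zero => rfl
      | succ n =>
        exfalso
        rw [hxs, hx0] at h
        exact hne w0 hw0' _ ((M.sim_equivalence w0).symm h)
    | succ m ih =>
      intro n h
      cases n with
      | zero =>
        exfalso
        rw [hxs, hx0] at h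
        exact hne w0 hw0' _ h
      | succ n =>
        rw [hxs, hxs] at h
        rw [ih n (hinj w0 hw0' _ _ h)]
  have hsim : ∀ w ∈ s', ∀ d e, M.sim w d e → M.sim w0 d e := by
    intro w hw d e h
    rcases hId d e with h1 | h1
    · exact h1 w0 hw0'
    · exact absurd h (h1 w hw)
  haveI : Nonempty D := ⟨d0⟩
  obtain ⟨en, hen⟩ := exists_surjective_nat D
  choose ω hωt hωa hωb using fun n => hfull (x n) (en n)
  have hsub : Set.range ω ⊆ t := by
    rintro _ ⟨n, rfl⟩
    exact hωt n
  obtain ⟨d, hd⟩ := himp (Set.range ω) hsub ⟨by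
      rintro _ ⟨n, rfl⟩
      exact cP_congr M _ ((M.sim_equivalence _).symm (hωa n)) (hxP _ (ht (hωt n)) n), by
      intro t' ht' ⟨c, hc⟩
      rcases Set.eq_empty_or_nonempty t' with h | ⟨w, hw⟩
      · exact ⟨d0, by simp [h]⟩
      · obtain ⟨n, rfl⟩ := ht' hw
        refine ⟨en n, fun w' hw' => ?_⟩
        obtain ⟨m, rfl⟩ := ht' hw'
        have h1 : M.sim w0 (x n) c := hsim _ (ht (hωt n)) _ _
          ((M.sim_equivalence _).trans ((M.sim_equivalence _).symm (hωa n)) (hc _ hw))
        have h2 : M.sim w0 (x m) c := hsim _ (ht (hωt m)) _ _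
          ((M.sim_equivalence _).trans ((M.sim_equivalence _).symm (hωa m)) (hc _ hw'))
        have h3 : m = n := hxinj m n
          ((M.sim_equivalence _).trans h2 ((M.sim_equivalence _).symm h1))
        subst h3
        exact hωb m⟩
  obtain ⟨n, rfl⟩ := hen d
  exact hd (ω n) ⟨n, rfl⟩ (hωb n)

end

/-- The domain of the countermodel. -/
abbrev Dom : Type := ℕ × Set ℕ

def bigFunc (w : Dom × Dom) : (f : Fn) → (Fin (Fn.ar f) → Dom) → Dom
  | Fn.e, _ => (0, ∅)
  | Fn.f, d => ((d ⟨0, Nat.one_pos⟩).1 + 1, (d ⟨0, Nat.one_pos⟩).2)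
  | Fn.a, _ => w.1
  | Fn.b, _ => w.2

def big : Model sig (Dom × Dom) Dom where
  nonempty_worlds := inferInstance
  nonempty_domain := inferInstance
  pred := fun _ _ => {d | (d ⟨0, Nat.one_pos⟩).2 = ∅}
  func := bigFunc
  func_rigid := by
    intro f hf w w'
    cases f
    · rfl
    · rfl
    · exact absurd hf id
    · exact absurd hf id
  sim := fun _ d e => d = e
  sim_equivalence := fun _ => eq_equivalence
  pred_congr := by
    intro w P d e h
    rw [funext h]
  func_congr := by
    intro w f d e h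
    rw [funext h]

theorem big_refutes : Refutes big phi := by
  refine ⟨Set.univ, fun _ => (0, ∅), ?_⟩
  unfold phi
  simp only [Supports.eq_6, Supports.eq_4, sup_fId, sup_fInf, sup_fDep, sup_fNotSurj,
    sup_fNotFull, sup_fP, val_ta]
  have hsim : ∀ w d e, big.sim w d e ↔ d = e := fun _ _ _ => Iff.rfl
  have hA : ∀ w, cA big w = w.1 := fun _ => rfl
  have hB : ∀ w, cB big w = w.2 := fun _ => rfl
  have hE : ∀ w, cE big w = (0, ∅) := fun _ => rfl
  have hF : ∀ w d, cF big w d = (d.1 + 1, d.2) := fun _ _ => rfl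
  have hP : ∀ w d, cP big w d ↔ d.2 = ∅ := fun _ _ => Iff.rfl
  simp only [hsim, hA, hB, hE, hF, hP]
  intro h
  obtain ⟨d, e, hde⟩ := h Set.univ subset_rfl ⟨by
      intro d e
      by_cases hde : d = e
      · left; intro _ _; exact hde
      · right; intro _ _; exact hde, by
      intro _ _; trivial, by
      intro _ _ d hd; exact hd, by
      intro _ _ d e hde
      simp only [Prod.mk.injEq] at hde
      exact Prod.ext (by omega) hde.2, by
      intro _ _ d hd
      simp at hd⟩ Set.univ subset_rfl (by
      intro t _ ⟨hP', hdep⟩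
      by_contra hsurj
      push Not at hsurj
      have key : ∀ n : ℕ, ∃ d : Dom, ∀ w ∈ t, w.1.1 = n → w.2 = d := by
        intro n
        obtain ⟨d, hd⟩ := hdep {w ∈ t | w.1.1 = n} (Set.sep_subset _ _)
          ⟨(n, ∅), fun w hw => Prod.ext hw.2 (hP' w hw.1)⟩
        exact ⟨d, fun w hw hn => hd w ⟨hw, hn⟩⟩
      choose F hF' using key
      have hs : Function.Surjective (fun n => (F n).2) := by
        intro A
        obtain ⟨w, hw, hw2⟩ := hsurj (0, A)
        refine ⟨w.1.1, ?_⟩
        have := hF' w.1.1 w hw rfl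
        simp only
        rw [← this, hw2]
      exact Function.cantor_surjective _ hs)
  exact hde (d, e) trivial ⟨rfl, rfl⟩

end Pool.Agent.H444Z.Inq
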